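import Mathlib

/-!
# [H31 DE] A set which contains all large multiples of every `d ≥ 2` has density one
-/

set_option autoImplicit false

namespace Pool.Agent.H31.DE

open Finset

/-- products of `1 - 1/p` over primes are arbitrarily small -/
theorem exists_prod_small (δ : ℝ) (hδ : 0 < δ) :
    ∃ s : Finset ℕ, (∀ p ∈ s, p.Prime) ∧ ∏ p ∈ s, (1 - (p : ℝ)⁻¹) ≤ δ := by
  classical
  by_contra! hcon
  refine not_summable_one_div_on_primes (summable_of_sum_le (c := - Real.log δ) ?_ ?_)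
  · intro n
    exact Set.indicator_nonneg (fun p _ => by positivity) n
  · intro u
    have h1 : ∑ x ∈ u, Set.indicator {p : ℕ | p.Prime} (fun n : ℕ => (1 : ℝ) / n) x =
        ∑ x ∈ u.filter Nat.Prime, (x : ℝ)⁻¹ := by
      rw [Finset.sum_filter]
      refine Finset.sum_congr rfl fun x _ => ?_
      by_cases hx : x.Prime
      · rw [Set.indicator_of_mem (show x ∈ {p : ℕ | p.Prime} from hx), if_pos hx, one_div]
      · rw [Set.indicator_of_notMem (show x ∉ {p : ℕ | p.Prime} from hx), if_neg hx]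
    rw [h1]
    have h2 := hcon (u.filter Nat.Prime) (fun p hp => (Finset.mem_filter.1 hp).2)
    have h3 : ∏ p ∈ u.filter Nat.Prime, (1 - (p : ℝ)⁻¹) ≤
        Real.exp (-∑ p ∈ u.filter Nat.Prime, (p : ℝ)⁻¹) := by
      rw [← Finset.sum_neg_distrib, Real.exp_sum]
      refine Finset.prod_le_prod (fun p hp => ?_) (fun p _ => ?_)
      · have hp' := (Finset.mem_filter.1 hp).2
        have : (p : ℝ)⁻¹ ≤ 1 := by
          refine inv_le_one_of_one_le₀ ?_
          exact_mod_cast hp'.one_lt.le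
        linarith
      · have := Real.add_one_le_exp (-(p : ℝ)⁻¹)
        linarith
    have h4 : Real.log δ ≤ -∑ p ∈ u.filter Nat.Prime, (p : ℝ)⁻¹ := by
      rw [← Real.log_exp (-∑ p ∈ u.filter Nat.Prime, (p : ℝ)⁻¹)]
      exact Real.log_le_log hδ (h2.le.trans h3)
    linarith

/-- A set which contains all large multiples of every `d ≥ 2` has density one. -/
theorem dens {S : Set ℕ} (h : ∀ d : ℕ, 2 ≤ d → ∃ M : ℕ, ∀ m : ℕ, M ≤ m → d * m ∈ S) (ε : ℝ) (hε : 0 < ε) :
    ∃ K0 : ℕ, ∀ K : ℕ, K0 ≤ K → (Set.ncard {k : ℕ | k < K ∧ k ∉ S} : ℝ) ≤ ε * K := by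
  classical
  obtain ⟨s, hs, hprod⟩ := exists_prod_small (ε / 2) (by positivity)
  choose! M hM using h
  set P : ℕ := ∏ p ∈ s, p with hP
  have hPpos : 0 < P := Finset.prod_pos fun p hp => (hs p hp).pos
  have htot : (P.totient : ℝ) ≤ ε / 2 * P := by
    have h1 := Nat.totient_eq_mul_prod_factors P
    rw [hP, Nat.primeFactors_prod hs, ← hP] at h1
    have h2 : (P.totient : ℝ) = P * ∏ p ∈ s, (1 - (p : ℝ)⁻¹) := by
      have h3 := congrArg (fun q : ℚ => (q : ℝ)) h1
      push_cast at h3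
      exact h3
    rw [h2, mul_comm]
    exact mul_le_mul_of_nonneg_right hprod (by positivity)
  set N : ℕ := ∑ p ∈ s, p * M p with hN
  have hmem : ∀ k, N ≤ k → ¬ P.Coprime k → k ∈ S := by
    intro k hk hco
    have h1 : ∃ p ∈ s, p ∣ k := by
      by_contra! hno
      exact hco (Nat.Coprime.prod_left fun p hp => ((hs p hp).coprime_iff_not_dvd).2 (hno p hp))
    obtain ⟨p, hp, m, rfl⟩ := h1
    refine hM p (hs p hp).two_le m ?_
    have h2 : p * M p ≤ N := by
      rw [hN]
      exact Finset.single_le_sum (f := fun p => p * M p) (fun _ _ => Nat.zero_le _) hp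
    exact Nat.le_of_mul_le_mul_left (h2.trans hk) (hs p hp).pos
  obtain ⟨K1, hK1⟩ := exists_nat_gt ((N + P.totient) / (ε / 2))
  refine ⟨K1, fun K hK => ?_⟩
  have hsub : {k : ℕ | k < K ∧ k ∉ S} ⊆
      ((Finset.range N ∪ (Finset.Ico 0 (0 + K)).filter (fun x => P.Coprime x) : Finset ℕ) : Set ℕ) := by
    rintro k ⟨hk, hkS⟩
    rw [Finset.mem_coe, Finset.mem_union]
    by_cases hkN : k < N
    · exact Or.inl (Finset.mem_range.2 hkN)
    · refine Or.inr (Finset.mem_filter.2 ⟨Finset.mem_Ico.2 ⟨Nat.zero_le _, by omega⟩, ?_⟩)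
      by_contra hco
      exact hkS (hmem k (not_lt.1 hkN) hco)
  have hcard : Set.ncard {k : ℕ | k < K ∧ k ∉ S} ≤ N + P.totient * (K / P + 1) := by
    refine (Set.ncard_le_ncard hsub (Finset.finite_toSet _)).trans ?_
    rw [Set.ncard_coe_finset]
    refine (Finset.card_union_le _ _).trans ?_
    rw [Finset.card_range]
    exact Nat.add_le_add_left (Nat.Ico_filter_coprime_le 0 K hPpos.ne') _
  have hcard' : (Set.ncard {k : ℕ | k < K ∧ k ∉ S} : ℝ) ≤ N + P.totient * ((K / P : ℕ) + 1) := by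
    exact_mod_cast hcard
  refine hcard'.trans ?_
  have h1 : ((K / P : ℕ) : ℝ) ≤ K / P := Nat.cast_div_le
  have hPr : (0 : ℝ) < P := by exact_mod_cast hPpos
  have h2 : (P.totient : ℝ) * (K / P : ℕ) ≤ ε / 2 * K := by
    calc (P.totient : ℝ) * (K / P : ℕ) ≤ (ε / 2 * P) * (K / P) :=
          mul_le_mul htot h1 (by positivity) (by positivity)
      _ = ε / 2 * K := by field_simp
  have h3 : ((N : ℝ) + P.totient) ≤ ε / 2 * K := by
    have h4 : ((N : ℝ) + P.totient) / (ε / 2) ≤ K := hK1.le.trans (by exact_mod_cast hK)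
    rw [div_le_iff₀ (by positivity)] at h4
    linarith
  nlinarith

end Pool.Agent.H31.DE
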