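import Mathlib
import Pool.Agent.H71.Clq.LG
import Pool.Agent.H71.Clq.Fold

/-!
# Displacing endomorphisms and clique divergence: the lemmas

* `no_disp`: a finite graph with levels (every vertex of positive level is dominated, among the vertices
  of at most its level, by a vertex of smaller level) has no endomorphism moving every vertex to a different, non adjacent one.
  Descent on the sum of the levels of the images: a vertex `x` of maximal level in the image is replaced by `w`.
* `Pr`: a graph with an automorphism; `ItP q`: the iterated clique graph of order `2 q` with the induced automorphism.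
* `StF`: iterated star maps; `nat`: any two of them are adjacent; `conj`: conjugation with the automorphism.
-/

set_option autoImplicit false

namespace Pool.Agent.H31.DE

open Pool.Agent.H71.Clq

/-- a graph, with the action of the trivial group -/
abbrev Gr : Type 1 := AG PUnit.{1}

theorem act_triv (H : Gr) (a : PUnit.{1}) (x : H.V) : H.act a x = x := by
  have h : a = 1 := Subsingleton.elim _ _
  rw [h]
  exact H.act_one x

theorem disp_triv (H : Gr) : Disp H := fun _ ha => (ha (Subsingleton.elim _ _)).elim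

/-- a graph from a relation -/
def mkGr (V : Type) (R : V → V → Prop) (hr : ∀ x, R x x) (hs : ∀ x y, R x y → R y x) : Gr where
  V := V
  R := R
  refl := hr
  symm := hs
  act := fun _ x => x
  act_one := fun _ => rfl
  act_mul := fun _ _ _ => rfl
  act_R := fun _ _ _ h => h

/-- a map of graphs -/
def mkEH (H H' : Gr) (f : H.V → H'.V) (h : ∀ x y, H.R x y → H'.R (f x) (f y)) : EH H H' where
  f := f
  map_R := h
  map_act := fun a x => by rw [act_triv, act_triv]

/-- finite graphs with levels have no displacing endomorphism -/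
theorem no_disp {V : Type} [Fintype V] (R : V → V → Prop) (hr : ∀ x, R x x) (hs : ∀ x y, R x y → R y x)
    (lev : V → ℕ) (o : V) (h0 : ∀ x, lev x = 0 ↔ x = o)
    (h3 : ∀ x, lev x ≠ 0 → ∃ w, R w x ∧ lev w + 1 = lev x ∧ ∀ y, R x y → lev y ≤ lev x → R w y) :
    ∀ (n : ℕ) (φ : V → V), (∀ x y, R x y → R (φ x) (φ y)) → (∑ y, lev (φ y)) = n → ∃ x, R x (φ x) := by
  classical
  intro n
  induction n using Nat.strong_induction_on with
  | _ n ih =>
    intro φ hφ hn
    have hne : (Finset.univ : Finset V).Nonempty := ⟨o, Finset.mem_univ o⟩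
    obtain ⟨y0, -, hy0⟩ := Finset.exists_max_image (Finset.univ : Finset V) (fun y => lev (φ y)) hne
    by_cases hL : lev (φ y0) = 0
    · have h1 : lev (φ o) = 0 := by
        have := hy0 o (Finset.mem_univ o)
        omega
      refine ⟨o, ?_⟩
      rw [(h0 _).1 h1]
      exact hr o
    · obtain ⟨w, hw1, hw2, hw3⟩ := h3 _ hL
      have hmax : ∀ y, lev (φ y) ≤ lev (φ y0) := fun y => hy0 y (Finset.mem_univ y)
      have hφ' : ∀ x y, R x y → R (if φ x = φ y0 then w else φ x) (if φ y = φ y0 then w else φ y) := by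
        intro x y hxy
        have h1 := hφ x y hxy
        by_cases hx : φ x = φ y0
        · by_cases hy : φ y = φ y0
          · rw [if_pos hx, if_pos hy]
            exact hr w
          · rw [if_pos hx, if_neg hy]
            rw [hx] at h1
            exact hw3 _ h1 (hmax y)
        · by_cases hy : φ y = φ y0
          · rw [if_neg hx, if_pos hy]
            rw [hy] at h1
            exact hs _ _ (hw3 _ (hs _ _ h1) (hmax x))
          · rw [if_neg hx, if_neg hy]
            exact h1
      have hlt : (∑ y, lev (if φ y = φ y0 then w else φ y)) < n := by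
        rw [← hn]
        apply Finset.sum_lt_sum
        · intro y _
          by_cases hy : φ y = φ y0
          · rw [if_pos hy, hy]
            omega
          · rw [if_neg hy]
        · refine ⟨y0, Finset.mem_univ _, ?_⟩
          rw [if_pos rfl]
          omega
      obtain ⟨z, hz⟩ := ih _ hlt (fun y => if φ y = φ y0 then w else φ y) hφ' rfl
      by_cases hz0 : φ z = φ y0
      · rw [if_pos hz0] at hz
        refine ⟨w, ?_⟩
        have h1 := hφ z w hz
        rw [hz0] at h1
        exact hw3 _ h1 (hmax w)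
      · rw [if_neg hz0] at hz
        exact ⟨z, hz⟩

/-- the image of a maximal clique under an isomorphism -/
theorem isMC_image {V W : Type} (e : V ≃ W) {R : V → V → Prop} {R' : W → W → Prop}
    (h : ∀ x y, R' (e x) (e y) ↔ R x y) (Q : MC R) : IsMC R' (e '' Q.1) := by
  refine ⟨?_, ?_⟩
  · rintro _ ⟨x, hx, rfl⟩ _ ⟨y, hy, rfl⟩
    exact (h x y).2 (Q.2.1 x hx y hy)
  · intro z hz
    refine ⟨e.symm z, Q.2.2 _ ?_, e.apply_symm_apply z⟩
    intro x hx
    have h1 := hz (e x) ⟨x, hx, rfl⟩
    rw [← h, e.apply_symm_apply]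
    exact h1

/-- the image of a maximal clique under an isomorphism -/
def mapMC {V W : Type} (e : V ≃ W) {R : V → V → Prop} {R' : W → W → Prop}
    (h : ∀ x y, R' (e x) (e y) ↔ R x y) (Q : MC R) : MC R' := ⟨e '' Q.1, isMC_image e h Q⟩

theorem symm_iff {V W : Type} (e : V ≃ W) {R : V → V → Prop} {R' : W → W → Prop}
    (h : ∀ x y, R' (e x) (e y) ↔ R x y) (x y : W) : R (e.symm x) (e.symm y) ↔ R' x y := by
  rw [← h, e.apply_symm_apply, e.apply_symm_apply]

/-- the isomorphism of the clique graphs -/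
def eqMC {V W : Type} (e : V ≃ W) {R : V → V → Prop} {R' : W → W → Prop}
    (h : ∀ x y, R' (e x) (e y) ↔ R x y) : MC R ≃ MC R' where
  toFun := mapMC e h
  invFun := mapMC e.symm (symm_iff e h)
  left_inv := by
    intro Q
    apply Subtype.ext
    change e.symm '' (e '' Q.1) = Q.1
    rw [← Set.image_comp]
    simp
  right_inv := by
    intro Q
    apply Subtype.ext
    change e '' (e.symm '' Q.1) = Q.1
    rw [← Set.image_comp]
    simp

theorem eqMC_R {V W : Type} (e : V ≃ W) {R : V → V → Prop} {R' : W → W → Prop}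
    (h : ∀ x y, R' (e x) (e y) ↔ R x y) (Q Q' : MC R) :
    KR R' (eqMC e h Q) (eqMC e h Q') ↔ KR R Q Q' := by
  constructor
  · rintro (h1 | ⟨x, ⟨y, hy, rfl⟩, ⟨z, hz, hzy⟩⟩)
    · exact Or.inl ((eqMC e h).injective h1)
    · have h2 := e.injective hzy
      rw [h2] at hz
      exact Or.inr ⟨y, hy, hz⟩
  · rintro (h1 | ⟨x, hx, hx'⟩)
    · exact Or.inl (by rw [h1])
    · exact Or.inr ⟨e x, ⟨x, hx, rfl⟩, ⟨x, hx', rfl⟩⟩

/-- a graph with an automorphism -/
structure Pr : Type 1 where
  /-- the graph -/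
  H : Gr
  /-- the automorphism -/
  f : H.V ≃ H.V
  R : ∀ x y, H.R (f x) (f y) ↔ H.R x y

/-- the clique graph with the induced automorphism -/
def Pr.K (p : Pr) : Pr where
  H := p.H.K
  f := eqMC p.f p.R
  R := eqMC_R p.f p.R

/-- the clique graph of order `2 q` -/
def ItP : ℕ → Pr → Pr
  | 0, p => p
  | q + 1, p => (ItP q p).K.K

theorem ItP_add (q m : ℕ) (p : Pr) : ItP (q + m) p = ItP q (ItP m p) := by
  induction q with
  | zero => rw [Nat.zero_add]; rfl
  | succ q ih =>
    rw [show q + 1 + m = (q + m) + 1 by ring]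
    change (ItP (q + m) p).K.K = (ItP q (ItP m p)).K.K
    rw [ih]

/-- iterated star maps -/
def StF (p : Pr) : (q : ℕ) → (p.H.V → (ItP q p).H.V) → Prop
  | 0, F => ∀ x, F x = x
  | q + 1, F => ∃ F' : p.H.V → (ItP q p).H.V, StF p q F' ∧
      ∀ (x : p.H.V) (Q : MC (ItP q p).H.R), F' x ∈ Q.1 → Q ∈ (F x : MC (KR (ItP q p).H.R)).1

theorem nat (p : Pr) (q : ℕ) : ∀ F G : p.H.V → (ItP q p).H.V, StF p q F → StF p q G →
    ∀ a b, p.H.R a b → (ItP q p).H.R (F a) (G b) := by
  induction q with
  | zero =>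
    intro F G hF hG a b hab
    rw [hF a, hG b]
    exact hab
  | succ q ih =>
    rintro F G ⟨F', hF', hF⟩ ⟨G', hG', hG⟩ a b hab
    have h1 := ih F' G' hF' hG' a b hab
    obtain ⟨Q, hQ⟩ := exists_mc (R := (ItP q p).H.R) (ItP q p).H.refl (ItP q p).H.symm {F' a, G' b} (by
      rintro x (rfl | rfl) y (rfl | rfl)
      · exact (ItP q p).H.refl _
      · exact h1
      · exact (ItP q p).H.symm _ _ h1
      · exact (ItP q p).H.refl _)
    exact Or.inr ⟨Q, hF a Q (hQ (Or.inl rfl)), hG b Q (hQ (Or.inr rfl))⟩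

theorem conj (p : Pr) (q : ℕ) : ∀ F : p.H.V → (ItP q p).H.V, StF p q F →
    StF p q (fun x => (ItP q p).f (F (p.f.symm x))) := by
  induction q with
  | zero =>
    intro F hF x
    change p.f (F (p.f.symm x)) = x
    have h1 : F (p.f.symm x) = p.f.symm x := hF _
    rw [h1]
    exact p.f.apply_symm_apply x
  | succ q ih =>
    rintro F ⟨F', hF', hF⟩
    refine ⟨fun x => (ItP q p).f (F' (p.f.symm x)), ih F' hF', ?_⟩
    intro x Q hQ
    refine ⟨(ItP q p).K.f.symm Q, hF (p.f.symm x) _ ?_, (ItP q p).K.f.apply_symm_apply Q⟩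
    exact ⟨_, hQ, (ItP q p).f.symm_apply_apply _⟩

theorem ex_st (p : Pr) : ∃ s : EH p.H p.H.K.K, IsStar p.H s ∧ ∀ q, ∃ U : EH p.H.K.K (ItP (q + 1) p).H,
    StF p (q + 1) (fun x => U.f (s.f x)) := by
  obtain ⟨s, hs⟩ := exists_star p.H (disp_triv p.H)
  refine ⟨s, hs, ?_⟩
  intro q
  induction q with
  | zero => exact ⟨EH.id _, fun x => x, fun _ => rfl, fun x Q hQ => hs x Q hQ⟩
  | succ q ih =>
    obtain ⟨U, hU⟩ := ih
    obtain ⟨s', hs'⟩ := exists_star (ItP (q + 1) p).H (disp_triv _)
    exact ⟨s'.comp U, fun x => U.f (s.f x), hU, fun x Q hQ => hs' _ Q hQ⟩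

/-- no periodic pair with a displacing automorphism -/
theorem core (p : Pr) (hfin : Finite p.H.V) (hne : Nonempty p.H.V) (hsc : SC p.H.R) (hd : ∀ x, ¬ p.H.R x (p.f x))
    (q : ℕ) (e : (ItP (q + 1) p).H.V ≃ p.H.V) (he : ∀ x y, p.H.R (e x) (e y) ↔ (ItP (q + 1) p).H.R x y)
    (hf : ∀ x, e ((ItP (q + 1) p).f x) = p.f (e x)) : False := by
  classical
  obtain ⟨s, hs, hU⟩ := ex_st p
  obtain ⟨U, hU⟩ := hU q
  -- the map and its powers
  set T : p.H.V → p.H.V := fun x => e (U.f (s.f x)) with hT
  have hTT : ∀ a b, p.H.R a b → p.H.R (T a) (p.f (T (p.f.symm b))) := by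
    intro a b hab
    have h1 := nat p (q + 1) _ _ hU (conj p (q + 1) _ hU) a b hab
    have h2 := (he _ _).2 h1
    have h3 := hf (U.f (s.f (p.f.symm b)))
    have h4 : p.H.R (T a) (e ((ItP (q + 1) p).f (U.f (s.f (p.f.symm b))))) := h2
    rw [h3] at h4
    exact h4
  have hTR : ∀ a b, p.H.R a b → p.H.R (T a) (T b) := by
    intro a b hab
    exact (he _ _).2 (U.map_R _ _ (s.map_R _ _ hab))
  have hTn : ∀ n a b, p.H.R a b → p.H.R (T^[n] a) (T^[n] b) := by
    intro n
    induction n with
    | zero => intro a b h; exact h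
    | succ n ih =>
      intro a b h
      rw [Function.iterate_succ_apply', Function.iterate_succ_apply']
      exact hTR _ _ (ih _ _ h)
  have hC : ∀ n a b, p.H.R a b → p.H.R (T^[n] (p.f a)) (p.f (T^[n] b)) := by
    intro n
    induction n with
    | zero => intro a b h; exact (p.R a b).2 h
    | succ n ih =>
      intro a b h
      rw [Function.iterate_succ_apply', Function.iterate_succ_apply']
      have h1 := hTT _ _ (ih a b h)
      rw [p.f.symm_apply_apply] at h1
      exact h1
  obtain ⟨N, hN, hid⟩ := exists_idem T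
  have htt : ∀ x, T^[N] (T^[N] x) = T^[N] x := by
    intro x
    rw [← Function.iterate_add_apply, hid]
  set X : Set p.H.V := Set.range T^[N] with hX
  have hXt : ∀ x ∈ X, T^[N] x = x := by
    rintro _ ⟨x, rfl⟩
    exact htt x
  have hgood : Good p.H s X := by
    refine ⟨Set.range_nonempty _, fun a x hx => by rw [act_triv]; exact hx, ?_⟩
    refine ⟨mkEH p.H.K.K p.H (fun v => T^[N] (T^[N - 1] (e (U.f v)))) ?_, ?_, ?_⟩
    · intro v w h
      exact hTn _ _ _ (hTn _ _ _ ((he _ _).2 (U.map_R _ _ h)))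
    · intro v
      exact ⟨_, rfl⟩
    · intro x hx
      change T^[N] (T^[N - 1] (T x)) = x
      rw [← Function.iterate_succ_apply, show (N - 1).succ = N by omega, hXt x hx, hXt x hx]
  have het := et_good p.H s hs X hgood
  have hscX : SC (fun x y : X => p.H.R x.1 y.1) :=
    sc_retract hsc X (T^[N]) (fun v => ⟨v, rfl⟩) hXt (fun x y h => hTn N x y h)
  obtain ⟨x0⟩ := hne
  obtain ⟨lev, hlev1, -, hlev3⟩ := levels (fun x y : X => p.H.R x.1 y.1)
    (fun x => p.H.refl x.1) (fun x y h => p.H.symm _ _ h) (fun x => Set.toFinite _) het hscX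
    ⟨T^[N] x0, x0, rfl⟩
  have hfX : Fintype X := Fintype.ofFinite X
  obtain ⟨x, hx⟩ := no_disp (fun x y : X => p.H.R x.1 y.1) (fun x => p.H.refl x.1)
    (fun x y h => p.H.symm _ _ h) lev _ hlev1 hlev3 _
    (fun x : X => (⟨T^[N] (p.f x.1), p.f x.1, rfl⟩ : X))
    (fun x y h => hTn N _ _ ((p.R _ _).2 h)) rfl
  have h1 : p.H.R x.1 (T^[N] (p.f x.1)) := hx
  have h2 := hC N x.1 (T^[N] (p.f x.1)) h1
  rw [htt] at h2
  exact hd _ h2

end Pool.Agent.H31.DE
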