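import Pool.Agent.H31.DE.Dis
import Pool.Agent.H71.Clq.Quo
import Pool.Agent.H71.Clq.Link
import Pool.Agent.H71.Clq.Sph

/-!
# Displacing endomorphisms and clique divergence: the theorem

* `pair_div`: a finite graph with simply connected clique complex and an automorphism moving every vertex to a different, non
  adjacent one has unbounded iterated clique graphs (pigeon hole on graphs with automorphism, `core`).
* `gr_div`: the same for endomorphisms (stable image, retracts).
* `sphere_div`: locally cyclic graphs with Euler characteristic two.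
-/

set_option autoImplicit false

namespace Pool.Agent.H31.DE

open Pool.Agent.H71.Clq

/-- isomorphic pairs from equal codes -/
theorem iso_of_code {N : ℕ} (p p' : Pr) (i : p.H.V → Fin N) (i' : p'.H.V → Fin N) (hi : Function.Injective i)
    (hi' : Function.Injective i') (h1 : Set.range i = Set.range i')
    (h2 : {z : Fin N × Fin N | ∃ x y, p.H.R x y ∧ z = (i x, i y)} = {z | ∃ x y, p'.H.R x y ∧ z = (i' x, i' y)})
    (h3 : {z : Fin N × Fin N | ∃ x, z = (i x, i (p.f x))} = {z | ∃ x, z = (i' x, i' (p'.f x))}) :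
    ∃ e : p'.H.V ≃ p.H.V, (∀ x y, p.H.R (e x) (e y) ↔ p'.H.R x y) ∧ ∀ x, e (p'.f x) = p.f (e x) := by
  classical
  have hx : ∀ x : p'.H.V, ∃ y : p.H.V, i y = i' x := by
    intro x
    have : i' x ∈ Set.range i := by rw [h1]; exact ⟨x, rfl⟩
    exact this
  choose g hg using hx
  have hx' : ∀ x : p.H.V, ∃ y : p'.H.V, i' y = i x := by
    intro x
    have : i x ∈ Set.range i' := by rw [← h1]; exact ⟨x, rfl⟩
    exact this
  choose g' hg' using hx'
  refine ⟨⟨g, g', ?_, ?_⟩, ?_, ?_⟩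
  · intro x
    apply hi'
    rw [hg', hg]
  · intro x
    apply hi
    rw [hg, hg']
  · intro x y
    change p.H.R (g x) (g y) ↔ p'.H.R x y
    constructor
    · intro h
      have h4 : (i' x, i' y) ∈ {z : Fin N × Fin N | ∃ x y, p.H.R x y ∧ z = (i x, i y)} :=
        ⟨g x, g y, h, by rw [hg, hg]⟩
      rw [h2] at h4
      obtain ⟨a, b, hab, h5⟩ := h4
      rw [Prod.mk.injEq] at h5
      rw [hi' h5.1, hi' h5.2]
      exact hab
    · intro h
      have h4 : (i' x, i' y) ∈ {z : Fin N × Fin N | ∃ x y, p'.H.R x y ∧ z = (i' x, i' y)} := ⟨x, y, h, rfl⟩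
      rw [← h2] at h4
      obtain ⟨a, b, hab, h5⟩ := h4
      rw [Prod.mk.injEq] at h5
      have h6 : g x = a := hi (by rw [hg]; exact h5.1)
      have h7 : g y = b := hi (by rw [hg]; exact h5.2)
      rw [h6, h7]
      exact hab
  · intro x
    change g (p'.f x) = p.f (g x)
    have h4 : (i' x, i' (p'.f x)) ∈ {z : Fin N × Fin N | ∃ x, z = (i' x, i' (p'.f x))} := ⟨x, rfl⟩
    rw [← h3] at h4
    obtain ⟨a, h5⟩ := h4
    rw [Prod.mk.injEq] at h5
    have h6 : g x = a := hi (by rw [hg]; exact h5.1)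
    rw [h6]
    apply hi
    rw [hg]
    exact h5.2

/-- the properties of a pair -/
structure Ok (p : Pr) : Prop where
  fin : Finite p.H.V
  ne : Nonempty p.H.V
  sc : SC p.H.R
  dis : ∀ x, ¬ p.H.R x (p.f x)

theorem ok_K (p : Pr) (h : Ok p) : Ok p.K := by
  have h1 := h.fin
  have h2 := h.ne
  refine ⟨?_, nonempty_K p.H h.ne, sc_K p.H.refl p.H.symm h.sc, ?_⟩
  · change Finite {s : Set p.H.V // IsMC p.H.R s}
    infer_instance
  · rintro Q (hQ | ⟨x, hx, ⟨y, hy, hyx⟩⟩)
    · obtain ⟨x, hx⟩ := mc_nonempty (R := p.H.R) Q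
      have hx' : x ∈ (p.K.f Q : MC p.H.R).1 := by
        rw [← hQ]
        exact hx
      obtain ⟨y, hy, hyx⟩ := hx'
      apply h.dis y
      have h3 : p.f y ∈ Q.1 := by
        rw [show p.f y = x from hyx]
        exact hx
      exact Q.2.1 y hy _ h3
    · apply h.dis y
      have h3 : p.f y ∈ Q.1 := by
        rw [show p.f y = x from hyx]
        exact hx
      exact Q.2.1 y hy _ h3

theorem ok_It (p : Pr) (h : Ok p) (m : ℕ) : Ok (ItP m p) := by
  induction m with
  | zero => exact h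
  | succ m ih => exact ok_K _ (ok_K _ ih)

/-- pairs: unbounded -/
theorem pair_div (p : Pr) (h : Ok p) (N : ℕ) : ∃ m, N < Nat.card (ItP m p).H.V := by
  classical
  by_contra hcon
  push Not at hcon
  have hi : ∀ m, ∃ i : (ItP m p).H.V → Fin N, Function.Injective i := by
    intro m
    have hf := (ok_It p h m).fin
    have e := Finite.equivFin (ItP m p).H.V
    exact ⟨fun x => Fin.castLE (hcon m) (e x), fun x y hxy => e.injective (Fin.castLE_injective _ hxy)⟩
  choose i hi using hi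
  let code : ℕ → Set (Fin N) × Set (Fin N × Fin N) × Set (Fin N × Fin N) := fun m =>
    (Set.range (i m), {z | ∃ x y, (ItP m p).H.R x y ∧ z = (i m x, i m y)},
      {z | ∃ x, z = (i m x, i m ((ItP m p).f x))})
  have hkey : ∀ m q : ℕ, code m = code (m + (q + 1)) → False := by
    intro m q hc
    have hc' : code m = code ((q + 1) + m) := by rw [hc, add_comm]
    simp only [code, Prod.mk.injEq] at hc'
    obtain ⟨h1, h2, h3⟩ := hc'
    obtain ⟨e, he1, he2⟩ := iso_of_code (ItP m p) (ItP ((q + 1) + m) p) (i m) (i _) (hi m) (hi _) h1 h2 h3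
    have hok := ok_It p h m
    have hE : ∃ e : (ItP (q + 1) (ItP m p)).H.V ≃ (ItP m p).H.V,
        (∀ x y, (ItP m p).H.R (e x) (e y) ↔ (ItP (q + 1) (ItP m p)).H.R x y) ∧
          ∀ x, e ((ItP (q + 1) (ItP m p)).f x) = (ItP m p).f (e x) := by
      rw [← ItP_add]
      exact ⟨e, he1, he2⟩
    obtain ⟨e', he1', he2'⟩ := hE
    exact core (ItP m p) hok.fin hok.ne hok.sc hok.dis q e' he1' he2'
  obtain ⟨m, m', hmm, he⟩ := Finite.exists_ne_map_eq_of_infinite code
  rcases lt_or_gt_of_ne hmm with hlt | hlt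
  · obtain ⟨q, rfl⟩ := Nat.exists_eq_add_of_lt hlt
    exact hkey m q (by rw [he]; congr 1)
  · obtain ⟨q, rfl⟩ := Nat.exists_eq_add_of_lt hlt
    exact hkey m' q (by rw [← he]; congr 1)

theorem ItP_H (m : ℕ) (p : Pr) : (ItP m p).H = AG.K^[2 * m] p.H := by
  induction m with
  | zero => rfl
  | succ m ih =>
    rw [show 2 * (m + 1) = (2 * m + 1) + 1 by ring, Function.iterate_succ_apply',
      Function.iterate_succ_apply', ← ih]
    rfl

/-- retracts -/
def Ret (X H : Gr) : Prop := ∃ (i : X.V → H.V) (r : H.V → X.V),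
  (∀ x y, X.R x y → H.R (i x) (i y)) ∧ (∀ x y, H.R x y → X.R (r x) (r y)) ∧ ∀ x, r (i x) = x

theorem ext_map (X H : Gr) (i : X.V → H.V) (hi : ∀ x y, X.R x y → H.R (i x) (i y)) :
    ∃ I : X.K.V → H.K.V, (∀ Q : MC X.R, i '' Q.1 ⊆ (I Q : MC H.R).1) ∧
      ∀ Q Q', X.K.R Q Q' → H.K.R (I Q) (I Q') := by
  have h : ∀ Q : MC X.R, ∃ P : MC H.R, i '' Q.1 ⊆ P.1 := by
    intro Q
    apply exists_mc H.refl H.symm
    rintro _ ⟨x, hx, rfl⟩ _ ⟨y, hy, rfl⟩
    exact hi _ _ (Q.2.1 x hx y hy)
  choose I hI using h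
  refine ⟨I, hI, ?_⟩
  rintro Q Q' (hQ | ⟨x, hx, hx'⟩)
  · exact Or.inl (by rw [hQ])
  · exact Or.inr ⟨i x, hI Q ⟨x, hx, rfl⟩, hI Q' ⟨x, hx', rfl⟩⟩

theorem ret_K (X H : Gr) (h : Ret X H) : Ret X.K H.K := by
  obtain ⟨i, r, hi, hr, hir⟩ := h
  obtain ⟨I, hI1, hI2⟩ := ext_map X H i hi
  obtain ⟨J, hJ1, hJ2⟩ := ext_map H X r hr
  refine ⟨I, J, hI2, hJ2, ?_⟩
  intro Q
  have hsub : (Q : MC X.R).1 ⊆ (J (I Q) : MC X.R).1 := by
    intro x hx
    apply hJ1 (I Q)
    refine ⟨i x, hI1 Q ⟨x, hx, rfl⟩, hir x⟩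
  apply Subtype.ext
  apply Set.Subset.antisymm _ hsub
  intro z hz
  exact (Q : MC X.R).2.2 z (fun x hx => (J (I Q) : MC X.R).2.1 z hz x (hsub hx))

theorem ret_iter (X H : Gr) (h : Ret X H) (m : ℕ) : Ret (AG.K^[m] X) (AG.K^[m] H) := by
  induction m with
  | zero => exact h
  | succ m ih =>
    rw [Function.iterate_succ_apply', Function.iterate_succ_apply']
    exact ret_K _ _ ih

theorem finite_it (H : Gr) (hf : Finite H.V) (m : ℕ) : Finite (AG.K^[m] H).V := by
  induction m with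
  | zero => exact hf
  | succ m ih =>
    rw [Function.iterate_succ_apply']
    change Finite {s : Set (AG.K^[m] H).V // IsMC (AG.K^[m] H).R s}
    infer_instance

/-- a finite graph with simply connected clique complex and a displacing endomorphism: unbounded -/
theorem gr_div (H : Gr) (hfin : Finite H.V) (hne : Nonempty H.V) (hsc : SC H.R) (f : H.V → H.V)
    (hf : ∀ x y, H.R x y → H.R (f x) (f y)) (hd : ∀ x, ¬ H.R x (f x)) (N : ℕ) :
    ∃ m, N < Nat.card (AG.K^[m] H).V := by
  classical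
  obtain ⟨n, hn, hid⟩ := exists_idem f
  have hfn : ∀ k x y, H.R x y → H.R (f^[k] x) (f^[k] y) := by
    intro k
    induction k with
    | zero => intro x y h; exact h
    | succ k ih =>
      intro x y h
      rw [Function.iterate_succ_apply', Function.iterate_succ_apply']
      exact hf _ _ (ih _ _ h)
  set X : Set H.V := Set.range f^[n] with hX
  have hXt : ∀ x ∈ X, f^[n] x = x := by
    rintro _ ⟨x, rfl⟩
    rw [← Function.iterate_add_apply, hid]
  have hXf : ∀ k, ∀ x ∈ X, f^[k] x ∈ X := by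
    rintro k _ ⟨x, rfl⟩
    refine ⟨f^[k] x, ?_⟩
    rw [← Function.iterate_add_apply, ← Function.iterate_add_apply, add_comm]
  let XG : Gr := mkGr X (fun x y => H.R x.1 y.1) (fun x => H.refl x.1) (fun x y h => H.symm _ _ h)
  have hret : Ret XG H := by
    refine ⟨fun x => x.1, fun v => ⟨f^[n] v, v, rfl⟩, fun x y h => h, fun x y h => hfn n x y h, ?_⟩
    intro x
    exact Subtype.ext (hXt x.1 x.2)
  have hscX : SC XG.R :=
    sc_retract hsc X (f^[n]) (fun v => ⟨v, rfl⟩) hXt (fun x y h => hfn n x y h)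
  have h1n : (n - 1) + 1 = n := by omega
  let e : X ≃ X :=
    { toFun := fun x => ⟨f x.1, hXf 1 x.1 x.2⟩
      invFun := fun x => ⟨f^[n - 1] x.1, hXf _ x.1 x.2⟩
      left_inv := by
        intro x
        apply Subtype.ext
        change f^[n - 1] (f x.1) = x.1
        rw [← Function.iterate_succ_apply, show (n - 1).succ = n by omega]
        exact hXt _ x.2
      right_inv := by
        intro x
        apply Subtype.ext
        change f (f^[n - 1] x.1) = x.1
        rw [← Function.iterate_succ_apply' f, show (n - 1).succ = n by omega]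
        exact hXt _ x.2 }
  let p : Pr :=
    { H := XG
      f := e
      R := by
        intro x y
        constructor
        · intro h
          have h2 : H.R (f^[n - 1] (f x.1)) (f^[n - 1] (f y.1)) := hfn _ _ _ h
          rw [← Function.iterate_succ_apply, ← Function.iterate_succ_apply, show (n - 1).succ = n by omega,
            hXt _ x.2, hXt _ y.2] at h2
          exact h2
        · intro h
          exact hf _ _ h }
  have hok : Ok p := by
    refine ⟨?_, ?_, hscX, fun x => hd x.1⟩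
    · change Finite X
      infer_instance
    · obtain ⟨v⟩ := hne
      exact ⟨⟨f^[n] v, v, rfl⟩⟩
  obtain ⟨m, hm⟩ := pair_div p hok N
  rw [ItP_H] at hm
  refine ⟨2 * m, lt_of_lt_of_le hm ?_⟩
  obtain ⟨i, r, -, -, hir⟩ := ret_iter XG H hret (2 * m)
  have hF := finite_it H hfin (2 * m)
  exact Nat.card_le_card_of_injective i (fun x y hxy => by rw [← hir x, hxy, hir y])

/-- the sphere -/
theorem sphere_div (V : Type) [Fintype V] [DecidableEq V] (G : SimpleGraph V)
    [DecidableRel G.Adj] (hc : G.Connected)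
    (hl : ∀ v : V, ∃ n : ℕ, 3 ≤ n ∧
        Nonempty (SimpleGraph.Iso (SimpleGraph.induce (G.neighborSet v) G)
          (SimpleGraph.cycleGraph n)))
    (hχ : (Fintype.card V : ℤ) - (G.edgeFinset.card : ℤ) + ((G.cliqueFinset 3).card : ℤ) = 2)
    (n : ℕ) (f : (kstep^[n] ⟨V, G⟩).1 → (kstep^[n] ⟨V, G⟩).1)
    (hf : ∀ x y, (kstep^[n] ⟨V, G⟩).2.Adj x y → f x = f y ∨ (kstep^[n] ⟨V, G⟩).2.Adj (f x) (f y))
    (hd : ∀ x, f x ≠ x ∧ ¬ (kstep^[n] ⟨V, G⟩).2.Adj x (f x))
    (N : ℕ) : ∃ m : ℕ, N < Nat.card (kstep^[m] ⟨V, G⟩).1 := by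
  classical
  have hL : LCy G := lcy_of_cycle G hl
  have hV : Nonempty V := hc.nonempty
  have hsc : SC (RG G) := sphere_sc G hc hL hχ
  let Γ : Gr := mkGr V (RG G) (fun x => Or.inl rfl)
    (fun x y h => h.elim (fun h => Or.inl h.symm) (fun h => Or.inr h.symm))
  have hcn : Cn Γ.R := by
    intro x y
    obtain ⟨p⟩ := hc.preconnected x y
    induction p with
    | nil => exact Relation.ReflTransGen.refl
    | cons h p ih => exact Relation.ReflTransGen.head (Or.inr h) ih
  have hnice : Nice Γ := by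
    refine ⟨hV, disp_triv Γ, fun x => Set.toFinite (α := V) _, ⟨Set.univ, Set.toFinite (α := V) _,
      fun x => ⟨1, x, Set.mem_univ _, (Γ.act_one x).symm⟩⟩, hcn, hsc⟩
  have hQ : IsQ Γ G := by
    refine ⟨id, Function.surjective_id, ?_, ?_⟩
    · intro x y
      constructor
      · intro h
        exact ⟨1, h.symm⟩
      · rintro ⟨a, h⟩
        exact h.symm
    · intro x y
      constructor
      · intro h
        exact ⟨h.ne, 1, Or.inr h⟩
      · rintro ⟨h1, a, h2⟩
        rcases h2 with h2 | h2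
        · exact absurd h2 h1
        · exact h2
  have hQm : ∀ m, ∃ π : (AG.K^[m] Γ).V ≃ (kstep^[m] ⟨V, G⟩).1, ∀ x y,
      ((kstep^[m] ⟨V, G⟩).2.Adj (π x) (π y) ↔ x ≠ y ∧ (AG.K^[m] Γ).R x y) := by
    intro m
    obtain ⟨π, h1, h2, h3⟩ := isQ_iter Γ hnice G hQ m
    have hinj : Function.Injective π := by
      intro x y hxy
      obtain ⟨a, ha⟩ := (h2 x y).1 hxy
      rw [act_triv] at ha
      exact ha.symm
    refine ⟨Equiv.ofBijective π ⟨hinj, h1⟩, ?_⟩
    intro x y
    change (kstep^[m] ⟨V, G⟩).2.Adj (π x) (π y) ↔ _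
    rw [h3]
    constructor
    · rintro ⟨h4, a, h5⟩
      rw [act_triv] at h5
      exact ⟨fun h => h4 (by rw [h]), h5⟩
    · rintro ⟨h4, h5⟩
      exact ⟨fun h => h4 (hinj h), 1, by rw [act_triv]; exact h5⟩
  obtain ⟨π, hπ⟩ := hQm n
  have hnn := nice_iter Γ hnice n
  have hff : ∀ x y, (AG.K^[n] Γ).R x y → (AG.K^[n] Γ).R (π.symm (f (π x))) (π.symm (f (π y))) := by
    intro x y hxy
    by_cases h : x = y
    · rw [h]
      exact (AG.K^[n] Γ).refl _
    · rcases hf _ _ ((hπ x y).2 ⟨h, hxy⟩) with h1 | h1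
      · rw [h1]
        exact (AG.K^[n] Γ).refl _
      · have h2 := hπ (π.symm (f (π x))) (π.symm (f (π y)))
        rw [π.apply_symm_apply, π.apply_symm_apply] at h2
        exact (h2.1 h1).2
  have hdd : ∀ x, ¬ (AG.K^[n] Γ).R x (π.symm (f (π x))) := by
    intro x hx
    obtain ⟨h1, h2⟩ := hd (π x)
    apply h2
    have h3 := (hπ x (π.symm (f (π x)))).2 ⟨?_, hx⟩
    · rw [π.apply_symm_apply] at h3
      exact h3
    · intro h4
      apply h1
      have h5 := congrArg π h4
      rw [π.apply_symm_apply] at h5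
      exact h5.symm
  obtain ⟨m, hm⟩ := gr_div (AG.K^[n] Γ) (finite_it Γ (inferInstanceAs (Finite V)) n) hnn.ne hnn.sc
    (fun x => π.symm (f (π x))) hff hdd N
  rw [← Function.iterate_add_apply] at hm
  obtain ⟨π', -⟩ := hQm (m + n)
  refine ⟨m + n, ?_⟩
  rw [← Nat.card_congr π']
  exact hm

end Pool.Agent.H31.DE
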